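import Pool.Agent.Lib.MP_fb520c_co.End.PG
import Pool.Agent.Lib.MP_fb520c_co.Fat.Poly0

/-! The area of the polygon. -/

set_option autoImplicit false

open MeasureTheory Set Real Metric
open scoped ENNReal

noncomputable section

namespace Pool.Agent.Lib.MP_fb520c_co

lemma area_lt {N : ℕ} {x : ℕ → Plane} (h : PG N x) {i j : ℕ} (h1 : i < j) (h2 : j < i + N)
    {z : Plane} (a : 0 < dt (x i) z) (b : 0 ≤ dt z (x (i + 1))) : ¬ 0 < dt (x j) z := fun c => by
  have k : 0 ≤ dt (x (i + 1)) (x j) := by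
    rcases (show i + 1 ≤ j from h1).eq_or_lt with e | e
    · rw [e, dt_self]
    · exact (h.cx _ _ e (by omega)).le
  have e : dt (x (i + 1)) (x j) * dt (x i) z + dt (x i) (x (i + 1)) * dt (x j) z +
      dt (x i) (x j) * dt z (x (i + 1)) = 0 := by simp only [dt]; ring
  linarith [mul_nonneg k a.le, mul_pos (h.wpos i) c, mul_nonneg (h.cx i j h1 h2).le b]

lemma area_disj {N : ℕ} {x : ℕ → Plane} (h : PG N x) (C : Set Plane) {i j : ℕ} (h1 : i < j)
    (h2 : j < 2 * N) : Disjoint (sect C (x i) (x (i + 1))) (sect C (x j) (x (j + 1))) :=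
  Set.disjoint_left.2 fun z ⟨_, a, b⟩ ⟨_, c, d⟩ => by
    rcases lt_trichotomy j (i + N) with k | rfl | k
    · exact area_lt h h1 k a b c
    · rw [h.per, dt_neg_left] at c
      linarith
    · refine area_lt h (j := i + N + N) (by omega) (by omega) c d ?_
      rwa [h.per, h.per, neg_neg]

lemma area_sum {N : ℕ} {x : ℕ → Plane} (h : PG N x) :
    ∑ j ∈ Finset.range (2 * N), dt (x j) (x (j + 1)) / 2 =
      ∑ j ∈ Finset.range N, dt (x j) (x (j + 1)) := by
  rw [two_mul, Finset.sum_range_add, ← Finset.sum_add_distrib]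
  refine Finset.sum_congr rfl fun j _ => ?_
  rw [add_comm N, add_right_comm, h.per, h.per, dt_neg_left, dt_neg_right, neg_neg, add_halves]

theorem PG.area {N : ℕ} {x : ℕ → Plane} (h : PG N x) :
    (volume (hull x)).toReal = ∑ j ∈ Finset.range N, dt (x j) (x (j + 1)) := by
  have hC := h.sym0
  have p : ∀ j ∈ Finset.range (2 * N), 0 ≤ dt (x j) (x (j + 1)) / 2 := fun j _ =>
    (half_pos (h.wpos j)).le
  rw [← area_sum h]
  refine le_antisymm (ENNReal.toReal_le_of_le_ofReal (Finset.sum_nonneg p) ?_) ?_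
  · rw [ENNReal.ofReal_sum_of_nonneg p]
    refine le_trans (measure_mono fun z hz => ?_) ((measure_biUnion_finset_le _ _).trans
      (Finset.sum_le_sum fun j _ => volume_tri 0 (x j) (x (j + 1)) (h.wpos j).le))
    obtain ⟨j, hj, s, t, hs, ht, e⟩ := h.sector z
    refine mem_biUnion (Finset.mem_range.2 hj) ⟨s, t, hs, ht, ?_, by rw [zero_add, e]⟩
    have k := h.edge_le hz j
    rw [e, edge, dt_sub_right, dt_add_left, dt_add_left, dt_smul_left, dt_smul_left, dt_smul_left,
      dt_smul_left, dt_self, dt_self, dt_swap (x j)] at k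
    exact le_of_mul_le_mul_right (by linarith) (h.wpos j)
  · refine (Finset.sum_le_sum fun j _ => hC.ar_tri (mem_hull x j) (mem_hull x (j + 1))).trans ?_
    unfold ar
    rw [← measureReal_biUnion_finset (fun i hi j hj e => ?_)
      (fun j _ => measurableSet_sect hC.cpt _ _) fun j _ => sect_ne_top hC.cpt _ _]
    · exact measureReal_mono (iUnion₂_subset fun j _ => inter_subset_left) hC.cpt.measure_ne_top
    · rcases e.lt_or_gt with k | k
      exacts [area_disj h _ k (Finset.mem_range.1 hj), (area_disj h _ k (Finset.mem_range.1 hi)).symm]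

end Pool.Agent.Lib.MP_fb520c_co
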