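import Pool.Agent.Lib.MP_fb520c_co.End.Main
import Pool.Agent.Lib.MP_fb520c_co.End.D1

/-! An end body. -/

set_option autoImplicit false

namespace Pool.Agent.Lib.MP_fb520c_co

theorem body1 : ∃ C, IsConvexBody C ∧ IsCentrallySymmetric C ∧ packingDensity C ≤ 0.9025626217 ∧
    1.1876208315 ≤ coveringDensity C := by
  obtain ⟨C, h1, h2, h3, h4⟩ := End.D1.D.sound End.D1.lin End.D1.hex
  rw [show End.D1.D.X = 9025626217 from rfl] at h3
  rw [show End.D1.D.Y = 11876208315 from rfl] at h4
  exact ⟨C, h1, h2, h3.trans (by norm_num), le_trans (by norm_num) h4⟩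

end Pool.Agent.Lib.MP_fb520c_co
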