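import Mathlib

/-! An integer checker for symmetric polygons: enclosing triangles and branch and bound. -/

set_option autoImplicit false

namespace Pool.Agent.Lib.MP_fb520c_co.End

/-- integer points -/
abbrev P : Type := ℤ × ℤ

/-- the determinant -/
def cr (a b : P) : ℤ := a.1 * b.2 - a.2 * b.1

/-- the difference -/
def sb (a b : P) : P := (a.1 - b.1, a.2 - b.2)

/-- the opposite point -/
def ng (a : P) : P := (-a.1, -a.2)

/-- the squared norm -/
def n2 (a : P) : ℤ := a.1 * a.1 + a.2 * a.2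

/-- a binary tree of vertices `m`, each node with the apex `w` of a triangle around its arc -/
inductive Tr
  | leaf : Tr
  | node (k : ℕ) (m w : P) (l r : Tr) : Tr

/-- the vertices in order -/
def Tr.pts : Tr → List P → List P
  | .leaf, c => c
  | .node _ m _ l r, c => l.pts (m :: r.pts c)

/-- the apex -/
def Tr.apex : Tr → P → P
  | .leaf, x => x
  | .node _ _ w _ _, _ => w

/-- the size hint -/
def Tr.hint : Tr → ℕ
  | .leaf => 0
  | .node k _ _ _ _ => k

/-- `z` is a vertex stored in the tree -/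
def Tr.Has (z : P) : Tr → Prop
  | .leaf => False
  | .node _ m _ l r => z = m ∨ l.Has z ∨ r.Has z

/-- `z` lies in the triangle -/
def inT (a w b z : P) : Bool :=
  decide (0 ≤ cr (sb w a) (sb z a)) && decide (0 ≤ cr (sb b w) (sb z w)) &&
    decide (0 ≤ cr (sb a b) (sb z b))

/-- the triangles are nested -/
def Tr.ok : Tr → P → P → Bool
  | .leaf, _, _ => true
  | .node _ m w l r, a, b => decide (0 < cr (sb w a) (sb b a)) && inT a w b m &&
      inT a w b (l.apex m) && inT a w b (r.apex m) && l.ok a m && r.ok m b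

/-- the sum of the determinants of consecutive vertices -/
def Tr.area : Tr → P → P → ℤ
  | .leaf, a, b => cr a b
  | .node _ m _ l r, a, b => l.area a m + r.area m b

/-- the same sum along a list -/
def sumc : P → List P → ℤ
  | _, [] => 0
  | a, b :: t => cr a b + sumc b t

lemma Tr.sumc_pts (T : Tr) : ∀ (a b : P) (c : List P),
    sumc a (T.pts (b :: c)) = T.area a b + sumc b c := by
  induction T with
  | leaf => intro a b c; rfl
  | node k m w l r ihl ihr =>
    intro a b c
    simp only [Tr.pts, Tr.area]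
    rw [ihl, ihr, add_assoc]

lemma sumc_eq (L : List P) : ∀ a : P, sumc a L =
    ∑ j ∈ Finset.range L.length, cr ((a :: L).getD j 0) ((a :: L).getD (j + 1) 0) := by
  induction L with
  | nil => intro a; rfl
  | cons b t ih =>
    intro a
    rw [sumc, ih, List.length_cons, Finset.sum_range_succ', add_comm]
    rfl

lemma Tr.exists_pts (T : Tr) : ∃ L : List P, (∀ c, T.pts c = L ++ c) ∧ ∀ z ∈ L, T.Has z := by
  induction T with
  | leaf => exact ⟨[], fun _ => rfl, by simp⟩
  | node k m w l r ihl ihr =>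
    obtain ⟨L1, h1, k1⟩ := ihl
    obtain ⟨L2, h2, k2⟩ := ihr
    refine ⟨L1 ++ m :: L2, fun c => by simp [Tr.pts, h1, h2], fun z hz => ?_⟩
    rcases List.mem_append.1 hz with h | h
    · exact Or.inr (Or.inl (k1 z h))
    · rcases List.mem_cons.1 h with h | h
      · exact Or.inl h
      · exact Or.inr (Or.inr (k2 z h))

lemma inT_le {a w b z d : P} {H : ℤ} (h0 : 0 < cr (sb w a) (sb b a)) (h : inT a w b z = true)
    (ha : cr a d ≤ H) (hw : cr w d ≤ H) (hb : cr b d ≤ H) : cr z d ≤ H := by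
  simp only [inT, Bool.and_eq_true, decide_eq_true_eq] at h
  obtain ⟨⟨h1, h2⟩, h3⟩ := h
  have e : cr (sb w a) (sb b a) * (H - cr z d) = cr (sb w a) (sb z a) * (H - cr b d) +
      cr (sb b w) (sb z w) * (H - cr a d) + cr (sb a b) (sb z b) * (H - cr w d) := by
    simp only [cr, sb]; ring
  have k : 0 ≤ cr (sb w a) (sb b a) * (H - cr z d) := by
    rw [e]
    exact add_nonneg (add_nonneg (mul_nonneg h1 (sub_nonneg.2 hb)) (mul_nonneg h2 (sub_nonneg.2 ha)))
      (mul_nonneg h3 (sub_nonneg.2 hw))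
  exact sub_nonneg.1 ((mul_nonneg_iff_of_pos_left h0).1 k)

lemma Tr.encl {d z : P} {H : ℤ} (T : Tr) : ∀ a b x : P, T.ok a b = true → cr a d ≤ H →
    cr b d ≤ H → cr (T.apex x) d ≤ H → T.Has z → cr z d ≤ H := by
  induction T with
  | leaf => intro _ _ _ _ _ _ _ h; exact h.elim
  | node k m w l r ihl ihr =>
    intro a b x h ha hb hw hz
    simp only [Tr.ok, Bool.and_eq_true, decide_eq_true_eq] at h
    obtain ⟨⟨⟨⟨⟨h0, h1⟩, h2⟩, h3⟩, h4⟩, h5⟩ := h
    have hm := inT_le h0 h1 ha hw hb
    rcases hz with rfl | hz | hz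
    · exact hm
    · exact ihl a m m h4 ha hm (inT_le h0 h2 ha hw hb) hz
    · exact ihr m b m h5 hm hb (inT_le h0 h3 ha hw hb) hz

/-- an arc: two end points and the tree of the vertices between them -/
structure Bk where
  a : P
  b : P
  t : Tr

/-- the corners of the triangle around the arc -/
def Bk.cor (B : Bk) : List P :=
  match B.t with
  | .leaf => [B.a, B.b]
  | .node _ _ w _ _ => [w, B.a, B.b]

/-- `z` is a vertex of the arc -/
def Bk.In (B : Bk) (z : P) : Prop := z = B.a ∨ z = B.b ∨ B.t.Has z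

/-- the test on both halves -/
def Bk.split (B : Bk) (f : Bk → Bool) : Bool :=
  match B.t with
  | .leaf => false
  | .node _ m _ l r => f ⟨B.a, m, l⟩ && f ⟨m, B.b, r⟩

/-- the hexagon form with a sign on the middle vertex -/
def hf (s : ℤ) (u v t : P) : ℤ := s * cr v (sb t u) + cr u t

/-- the bound at all corners -/
def test (s H : ℤ) (A B T : Bk) : Bool :=
  A.cor.all fun u => T.cor.all fun t => B.cor.all fun v => decide (hf s u v t ≤ H)

/-- branch and bound -/
def bb (s H : ℤ) : ℕ → Bk → Bk → Bk → Bool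
  | 0, _, _, _ => false
  | n + 1, A, B, T => test s H A B T ||
      (bif Nat.ble B.t.hint A.t.hint && Nat.ble T.t.hint A.t.hint then
        A.split fun X => bb s H n X B T
      else bif Nat.ble T.t.hint B.t.hint then B.split fun X => bb s H n A X T
      else T.split fun X => bb s H n A B X)

lemma Bk.le {B : Bk} (h : B.t.ok B.a B.b = true) {f : P → ℤ} {d : P} {c H : ℤ}
    (hf : ∀ z, f z = cr z d + c) (hc : ∀ p ∈ B.cor, f p ≤ H) {z : P} (hz : B.In z) : f z ≤ H := by
  obtain ⟨a, b, t⟩ := B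
  have ha : f a ≤ H := hc a (by cases t <;> simp [Bk.cor])
  have hb : f b ≤ H := hc b (by cases t <;> simp [Bk.cor])
  have hw : f (t.apex a) ≤ H := hc _ (by cases t <;> simp [Bk.cor, Tr.apex])
  rcases hz with rfl | rfl | hz
  · exact ha
  · exact hb
  rw [hf] at ha hb hw ⊢
  have := t.encl (d := d) (H := H - c) a b a h (by linarith) (by linarith) (by linarith) hz
  linarith

lemma Bk.split_ok {B : Bk} (h : B.t.ok B.a B.b = true) {f : Bk → Bool} (hs : B.split f = true)
    {z : P} (hz : B.In z) : ∃ X : Bk, X.t.ok X.a X.b = true ∧ f X = true ∧ X.In z := by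
  obtain ⟨a, b, t⟩ := B
  cases t with
  | leaf => simp [Bk.split] at hs
  | node k m w l r =>
    simp only [Tr.ok, Bool.and_eq_true] at h
    simp only [Bk.split, Bool.and_eq_true] at hs
    rcases hz with hz | hz | hz | hz | hz
    · exact ⟨_, h.1.2, hs.1, Or.inl hz⟩
    · exact ⟨_, h.2, hs.2, Or.inr (Or.inl hz)⟩
    · exact ⟨_, h.2, hs.2, Or.inl hz⟩
    · exact ⟨_, h.1.2, hs.1, Or.inr (Or.inr hz)⟩
    · exact ⟨_, h.2, hs.2, Or.inr (Or.inr hz)⟩

lemma test_ok {s H : ℤ} {A B T : Bk} (hA : A.t.ok A.a A.b = true) (hB : B.t.ok B.a B.b = true)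
    (hT : T.t.ok T.a T.b = true) (h : test s H A B T = true) {u v t : P} (hu : A.In u)
    (hv : B.In v) (ht : T.In t) : hf s u v t ≤ H := by
  simp only [test, List.all_eq_true, decide_eq_true_eq] at h
  refine Bk.le hA (f := fun u => hf s u v t) (d := (t.1 + s * v.1, t.2 + s * v.2))
    (c := s * cr v t) (fun z => by simp only [hf, cr, sb]; ring) (fun u hu => ?_) hu
  refine Bk.le hT (f := fun t => hf s u v t) (d := (-(u.1 + s * v.1), -(u.2 + s * v.2)))
    (c := s * cr u v) (fun z => by simp only [hf, cr, sb]; ring) (fun t ht => ?_) ht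
  exact Bk.le hB (f := fun v => hf s u v t) (d := (s * (t.1 - u.1), s * (t.2 - u.2)))
    (c := cr u t) (fun z => by simp only [hf, cr, sb]; ring) (h u hu t ht) hv

lemma bb_ok {s H : ℤ} {u v t : P} (n : ℕ) : ∀ A B T : Bk, A.t.ok A.a A.b = true →
    B.t.ok B.a B.b = true → T.t.ok T.a T.b = true → bb s H n A B T = true → A.In u → B.In v →
    T.In t → hf s u v t ≤ H := by
  induction n with
  | zero => intro A B T _ _ _ h; simp [bb] at h
  | succ n ih =>
    intro A B T hA hB hT h hu hv ht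
    rw [bb, Bool.or_eq_true] at h
    rcases h with h | h
    · exact test_ok hA hB hT h hu hv ht
    cases e1 : (Nat.ble B.t.hint A.t.hint && Nat.ble T.t.hint A.t.hint) with
    | true =>
      rw [e1, cond_true] at h
      obtain ⟨X, k1, k2, k3⟩ := Bk.split_ok hA h hu
      exact ih X B T k1 hB hT k2 k3 hv ht
    | false =>
      rw [e1, cond_false] at h
      cases e2 : Nat.ble T.t.hint B.t.hint with
      | true =>
        rw [e2, cond_true] at h
        obtain ⟨X, k1, k2, k3⟩ := Bk.split_ok hB h hv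
        exact ih A X T hA k1 hT k2 hu k3 ht
      | false =>
        rw [e2, cond_false] at h
        obtain ⟨X, k1, k2, k3⟩ := Bk.split_ok hT h ht
        exact ih A B X hA hB k1 k2 hu hv k3

/-- a test along five lists -/
def all5 (g : P → P → P → P → P → Bool) : List P → List P → List P → List P → List P → Bool
  | a :: A, b :: B, c :: C, d :: D, e :: E => g a b c d e && all5 g A B C D E
  | _, _, _, _, _ => true

lemma all5_ok {g : P → P → P → P → P → Bool} (j : ℕ) : ∀ A B C D E : List P,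
    all5 g A B C D E = true → j < A.length → j < B.length → j < C.length → j < D.length →
    j < E.length → g (A.getD j 0) (B.getD j 0) (C.getD j 0) (D.getD j 0) (E.getD j 0) = true := by
  induction j with
  | zero =>
    rintro (_ | ⟨a, A⟩) (_ | ⟨b, B⟩) (_ | ⟨c, C⟩) (_ | ⟨d, D⟩) (_ | ⟨e, E⟩) h h1 h2 h3 h4 h5 <;>
      first
      | (simp at h1 h2 h3 h4 h5; done)
      | (rw [all5, Bool.and_eq_true] at h; exact h.1)
  | succ j ih =>
    rintro (_ | ⟨a, A⟩) (_ | ⟨b, B⟩) (_ | ⟨c, C⟩) (_ | ⟨d, D⟩) (_ | ⟨e, E⟩) h h1 h2 h3 h4 h5 <;>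
      first
      | (simp at h1 h2 h3 h4 h5; done)
      | (rw [all5, Bool.and_eq_true] at h
         exact ih A B C D E h.2 (by simpa using h1) (by simpa using h2) (by simpa using h3)
           (by simpa using h4) (by simpa using h5))

/-- a test along a list with four offsets -/
def allO (g : P → P → P → P → P → Bool) (L : List P) (o1 o2 o3 o4 : ℕ) : Bool :=
  all5 g L (L.drop o1) (L.drop o2) (L.drop o3) (L.drop o4)

lemma allO_ok {g : P → P → P → P → P → Bool} {L : List P} {o1 o2 o3 o4 : ℕ}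
    (h : allO g L o1 o2 o3 o4 = true) {j : ℕ} (h1 : j + o1 < L.length) (h2 : j + o2 < L.length)
    (h3 : j + o3 < L.length) (h4 : j + o4 < L.length) :
    g (L.getD j 0) (L.getD (j + o1) 0) (L.getD (j + o2) 0) (L.getD (j + o3) 0)
      (L.getD (j + o4) 0) = true := by
  have e : ∀ o, (L.drop o).getD j 0 = L.getD (j + o) 0 := fun o => by
    simp [List.getD_eq_getElem?_getD, add_comm]
  have := all5_ok j _ _ _ _ _ h (by omega) (by simp; omega) (by simp; omega) (by simp; omega)
    (by simp; omega)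
  rwa [e, e, e, e] at this

/-- the vertex with a given number -/
def vv (L : List P) (n j : ℕ) : P :=
  bif Nat.beq (j / n % 2) 0 then L.getD (j % n) 0 else ng (L.getD (j % n) 0)

lemma ng_ng (a : P) : ng (ng a) = a := by simp [ng]

lemma vv_add (L : List P) {n : ℕ} (hn : 0 < n) (j : ℕ) : vv L n (j + n) = ng (vv L n j) := by
  simp only [vv, Nat.add_div_right _ hn, Nat.add_mod_right]
  rcases Nat.mod_two_eq_zero_or_one (j / n) with h | h
  · rw [h, show (j / n + 1) % 2 = 1 by omega]; rfl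
  · rw [h, show (j / n + 1) % 2 = 0 by omega]; exact (ng_ng _).symm

lemma vv_lt (L : List P) {n j : ℕ} (h : j < n) : vv L n j = L.getD j 0 := by
  simp only [vv, Nat.div_eq_of_lt h, Nat.mod_eq_of_lt h]; rfl

/-- the data of a polygon with `6 M` vertices, scaled by `S` -/
structure Dat where
  M : ℕ
  S : ℤ
  a : P
  e1 : P
  e2 : P
  T : Tr
  A : ℤ
  Q : ℤ
  H : ℤ
  X : ℤ
  Y : ℤ
  p0 : ℕ
  p1 : ℕ
  p2 : ℕ
  p3 : ℕ
  p4 : ℕ

/-- half of the vertices -/
def Dat.L (D : Dat) : List P := D.a :: D.T.pts [ng D.a]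

/-- all vertices -/
def Dat.v (D : Dat) (j : ℕ) : P := vv D.L (3 * D.M) j

/-- the whole arc -/
def Dat.B (D : Dat) : Bk := ⟨D.a, ng D.a, D.T⟩

/-- the test on an edge -/
def g1 (S : ℤ) (e1 e2 x y : P) : Bool :=
  decide (0 < cr e1 x) && decide (0 < cr e2 (sb y x)) && decide (0 < cr x y) &&
    decide (n2 x ≤ S * S) && decide (13924 * (S * S * n2 (sb y x)) ≤ 15625 * (cr x y * cr x y))

/-- the test on an affine regular hexagon -/
def g3 (Q : ℤ) (x x' y y' z : P) : Bool :=
  decide (z.1 = y.1 - x.1) && decide (z.2 = y.2 - x.2) &&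
    decide (Q + cr (sb x' x) (sb y' y) ≤ 4 * cr x y) &&
    decide (Q + cr (sb x' x) (sb y' y) ≤ 4 * cr x' y')

/-- the test on a pentagon -/
def g5 (S : ℤ) (a b c d e : P) : Bool :=
  decide (a.2 < 0) && decide (b.2 < 0) && decide (0 < c.2) && decide (0 < d.2) &&
    decide (0 < e.2) && decide (0 < cr a b) && decide (0 < cr b c) && decide (0 < cr c d) &&
    decide (0 < cr d e) && decide (0 < cr e a) &&
    decide (113 * (S * S) ≤ 25 * (cr a b + cr b c + cr c d + cr d e + cr e a))

/-- the tests along the boundary -/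
def Dat.lin (D : Dat) : Bool :=
  Nat.beq D.L.length (3 * D.M + 1) && Nat.ble 1 D.M && decide (0 < D.S) &&
    allO (fun x y _ _ _ => g1 D.S D.e1 D.e2 x y) D.L 1 0 0 0 &&
    allO (fun x y z _ _ => decide (0 ≤ cr (sb y x) (sb z y))) D.L 1 2 0 0 &&
    allO (g3 D.Q) D.L 1 D.M (D.M + 1) (2 * D.M) &&
    decide (D.T.area D.a (ng D.a) = D.A) &&
    g5 D.S (D.v D.p0) (D.v D.p1) (D.v D.p2) (D.v D.p3) (D.v D.p4) &&
    decide (0 < D.Q) && decide (0 < D.H) && decide (2 * D.H ≤ 5 * (D.S * D.S)) &&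
    decide (10000000000 * D.A ≤ D.X * D.Q) && decide (D.Y * D.H ≤ 10000000000 * D.A)

/-- the tests for the inscribed hexagons -/
def Dat.hex (D : Dat) : Bool :=
  D.T.ok D.a (ng D.a) && bb 1 D.H 100 D.B D.B D.B && bb (-1) D.H 100 D.B D.B D.B

/-- the hexagon form -/
def hz (u v t : P) : ℤ := cr u v + cr v t + cr u t

lemma Dat.v_cases (D : Dat) (hM : 0 < D.M) (hL : D.L.length = 3 * D.M + 1) (j : ℕ) :
    ∃ u, D.B.In u ∧ (D.v j = u ∨ D.v j = ng u) := by
  refine ⟨D.L.getD (j % (3 * D.M)) 0, ?_, ?_⟩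
  · have hj : j % (3 * D.M) < D.L.length := by
      have := Nat.mod_lt j (show 0 < 3 * D.M by omega)
      omega
    rw [List.getD_eq_getElem _ _ hj]
    have hm := List.getElem_mem hj
    generalize D.L[j % (3 * D.M)] = u at hm
    obtain ⟨L, h1, h2⟩ := D.T.exists_pts
    rw [Dat.L, h1] at hm
    simp only [List.mem_cons, List.mem_append, List.not_mem_nil, or_false] at hm
    rcases hm with h | h | h
    · exact Or.inl h
    · exact Or.inr (Or.inr (h2 u h))
    · exact Or.inr (Or.inl h)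
  · unfold Dat.v vv
    cases Nat.beq (j / (3 * D.M) % 2) 0
    · exact Or.inr rfl
    · exact Or.inl rfl

theorem Dat.hz_le (D : Dat) (hM : 0 < D.M) (hL : D.L.length = 3 * D.M + 1) (h : D.hex = true)
    (i j k : ℕ) : hz (D.v i) (D.v j) (D.v k) ≤ D.H := by
  simp only [Dat.hex, Bool.and_eq_true] at h
  obtain ⟨⟨h0, h1⟩, h2⟩ := h
  have k1 : ∀ u v t, D.B.In u → D.B.In v → D.B.In t → hf 1 u v t ≤ D.H := fun u v t =>
    bb_ok 100 _ _ _ h0 h0 h0 h1
  have k2 : ∀ u v t, D.B.In u → D.B.In v → D.B.In t → hf (-1) u v t ≤ D.H := fun u v t =>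
    bb_ok 100 _ _ _ h0 h0 h0 h2
  obtain ⟨u, hu, e1⟩ := D.v_cases hM hL i
  obtain ⟨v, hv, e2⟩ := D.v_cases hM hL j
  obtain ⟨t, ht, e3⟩ := D.v_cases hM hL k
  have a1 := k1 u v t hu hv ht
  have a2 := k1 t u v ht hu hv
  have a3 := k1 v t u hv ht hu
  have a4 := k2 u v t hu hv ht
  simp only [hf, cr, sb] at a1 a2 a3 a4
  rcases e1 with e1 | e1 <;> rcases e2 with e2 | e2 <;> rcases e3 with e3 | e3 <;>
    rw [e1, e2, e3] <;> simp only [hz, cr, ng] <;> linarith

end Pool.Agent.Lib.MP_fb520c_co.End
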