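import Pool.Agent.Lib.MP_fb520c_co.End.Reg
import Pool.Agent.Lib.MP_fb520c_co.End.Chk

/-! Soundness of the checker for end bodies. -/

set_option autoImplicit false

open MeasureTheory Set Real Metric

noncomputable section

namespace Pool.Agent.Lib.MP_fb520c_co.End

/-- the scaled point -/
def rp (S : ℤ) (a : P) : Plane := pt ((a.1 : ℝ) / S) ((a.2 : ℝ) / S)

lemma rp_ng (S : ℤ) (a : P) : rp S (ng a) = -rp S a :=
  plane_ext (by simp [rp, ng, neg_div]) (by simp [rp, ng, neg_div])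

lemma rp_sb (S : ℤ) (a b : P) : rp S (sb a b) = rp S a - rp S b :=
  plane_ext (by simp [rp, sb, sub_div]) (by simp [rp, sb, sub_div])

lemma dt_rp (S : ℤ) (a b : P) : dt (rp S a) (rp S b) = (cr a b : ℝ) / (S : ℝ) ^ 2 := by
  simp only [rp, dt, cr, pt_zero, pt_one]; push_cast; ring

lemma norm_rp (S : ℤ) (a : P) : ‖rp S a‖ ^ 2 = (n2 a : ℝ) / (S : ℝ) ^ 2 := by
  simp only [norm_sq_eq, rp, n2, pt_zero, pt_one]; push_cast; ring

theorem Dat.sound (D : Dat) (h1 : D.lin = true) (h2 : D.hex = true) :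
    ∃ C, IsConvexBody C ∧ IsCentrallySymmetric C ∧ packingDensity C ≤ (D.X : ℝ) / 10000000000 ∧
      (D.Y : ℝ) / 10000000000 ≤ coveringDensity C := by
  simp only [Dat.lin, Bool.and_eq_true, decide_eq_true_eq, Nat.beq_eq, Nat.ble_eq] at h1
  obtain ⟨⟨⟨⟨⟨⟨⟨⟨⟨⟨⟨⟨hL, hM⟩, hS⟩, c1⟩, c2⟩, c3⟩, hA⟩, c5⟩, Q0⟩, H0⟩, H1⟩, hX⟩, hY⟩ := h1
  have n0 : 0 < 3 * D.M := by omega
  have S0 : (0 : ℝ) < D.S := by exact_mod_cast hS
  have S2 : (0 : ℝ) < (D.S : ℝ) ^ 2 := by positivity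
  have per : ∀ j, D.v (j + 3 * D.M) = ng (D.v j) := vv_add _ n0
  have hv : ∀ j ≤ 3 * D.M, D.L.getD j 0 = D.v j := by
    intro j hj
    rcases hj.lt_or_eq with hj | rfl
    · exact (vv_lt _ hj).symm
    · have e := per 0
      rw [zero_add] at e
      rw [e, Dat.v, vv_lt _ n0]
      obtain ⟨L, k, -⟩ := D.T.exists_pts
      rw [Dat.L, k] at hL ⊢
      have e2 : 3 * D.M = L.length + 1 := by simpa using hL.symm
      rw [e2]
      simp
  have k1 : ∀ j < 3 * D.M, g1 D.S D.e1 D.e2 (D.v j) (D.v (j + 1)) = true := fun j hj => by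
    have := allO_ok c1 (j := j) (by omega) (by omega) (by omega) (by omega)
    rwa [hv j (by omega), hv (j + 1) (by omega)] at this
  have k2 : ∀ j, j + 1 < 3 * D.M →
      0 ≤ cr (sb (D.v (j + 1)) (D.v j)) (sb (D.v (j + 2)) (D.v (j + 1))) := fun j hj => by
    have := allO_ok c2 (j := j) (by omega) (by omega) (by omega) (by omega)
    rw [hv j (by omega), hv (j + 1) (by omega), hv (j + 2) (by omega)] at this
    exact of_decide_eq_true this
  have k3 : ∀ j < D.M, g3 D.Q (D.v j) (D.v (j + 1)) (D.v (j + D.M)) (D.v (j + (D.M + 1)))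
      (D.v (j + 2 * D.M)) = true := fun j hj => by
    have := allO_ok c3 (j := j) (by omega) (by omega) (by omega) (by omega)
    rwa [hv j (by omega), hv (j + 1) (by omega), hv (j + D.M) (by omega),
      hv (j + (D.M + 1)) (by omega), hv (j + 2 * D.M) (by omega)] at this
  simp only [g1, g3, g5, Bool.and_eq_true, decide_eq_true_eq] at k1 k3 c5
  have pos : ∀ {a b : P}, 0 < cr a b → 0 < dt (rp D.S a) (rp D.S b) := fun h => by
    rw [dt_rp]; exact div_pos (by exact_mod_cast h) S2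
  let x : ℕ → Plane := fun j => rp D.S (D.v j)
  have ed : ∀ j, edge x j = rp D.S (sb (D.v (j + 1)) (D.v j)) := fun j => (rp_sb _ _ _).symm
  have xp : ∀ j, x (j + 3 * D.M) = -x j := fun j => by simp only [x, per, rp_ng]
  have hP : PG (3 * D.M) x := by
    refine ⟨by omega, xp, sorted_lt xp (rp D.S D.e1) (fun j hj => pos (k1 j hj).1.1.1.1)
      fun j hj => pos (k1 j (by omega)).1.1.2, sorted_le (fun j => ?_) (rp D.S D.e2)
      (fun j hj => by rw [ed]; exact pos (k1 j hj).1.1.1.2) fun j hj => ?_⟩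
    · simp only [edge]
      rw [show j + 3 * D.M + 1 = j + 1 + 3 * D.M by omega, xp, xp]
      abel
    · rw [ed, ed, dt_rp]
      exact div_nonneg (by exact_mod_cast k2 j hj) S2.le
  have hsum : ∑ j ∈ Finset.range (3 * D.M), dt (x j) (x (j + 1)) = (D.A : ℝ) / (D.S : ℝ) ^ 2 := by
    have e1 := D.T.sumc_pts D.a (ng D.a) []
    rw [sumc_eq, hA, sumc, add_zero] at e1
    have e2 : (D.T.pts [ng D.a]).length = 3 * D.M := by simpa [Dat.L] using hL
    rw [e2] at e1
    rw [← e1]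
    push_cast
    rw [Finset.sum_div]
    refine Finset.sum_congr rfl fun j hj => ?_
    have hj := Finset.mem_range.1 hj
    rw [← dt_rp]
    exact congrArg₂ dt (congrArg (rp D.S) (hv j hj.le).symm)
      (congrArg (rp D.S) (hv (j + 1) hj).symm)
  obtain ⟨⟨⟨⟨⟨⟨⟨⟨⟨⟨s0, s1⟩, s2⟩, s3⟩, s4⟩, d0⟩, d1⟩, d2⟩, d3⟩, d4⟩, df⟩ := c5
  have Q1 : (0 : ℝ) < D.Q := by exact_mod_cast Q0
  have H2 : (0 : ℝ) < D.H := by exact_mod_cast H0
  obtain ⟨C, b1, b2, b3, b4⟩ := hP.dens (Q := (D.Q : ℝ) / (D.S : ℝ) ^ 2)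
    (H := (D.H : ℝ) / (D.S : ℝ) ^ 2) (fun j hj => by
      have : D.v (j + 2 * D.M) = sb (D.v (j + D.M)) (D.v j) :=
        Prod.ext (k3 j hj).1.1.1 (k3 j hj).1.1.2
      simp only [x, this, rp_sb]) hsum (by positivity) (fun j hj => by
      obtain ⟨⟨-, a1⟩, a2⟩ := k3 j hj
      rw [show j + 1 + D.M = j + (D.M + 1) by omega]
      simp only [ed, x, dt_rp, ← add_div, ← mul_div_assoc, div_le_div_iff_of_pos_right S2]
      exact ⟨by exact_mod_cast a1, by exact_mod_cast a2⟩) (by positivity) (by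
      rw [div_le_iff₀ S2]
      have : (2 : ℝ) * D.H ≤ 5 * (D.S * D.S) := by exact_mod_cast H1
      linarith) (fun i j k => by
      have := D.hz_le (by omega) hL h2 i j k
      simp only [hform, x, dt_rp, ← add_div, div_le_div_iff_of_pos_right S2]
      exact_mod_cast this) (fun j hj => by
      have : (13924 : ℝ) * (D.S * D.S * n2 (sb (D.v (j + 1)) (D.v j))) ≤
          15625 * (cr (D.v j) (D.v (j + 1)) * cr (D.v j) (D.v (j + 1))) := by
        exact_mod_cast (k1 j hj).2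
      simp only [ed, x, dt_rp, norm_rp]
      rw [div_pow (cr _ _ : ℝ), le_div_iff₀ (by positivity)]
      field_simp
      linarith) (fun j hj => by
      have : (n2 (D.v j) : ℝ) ≤ D.S * D.S := by exact_mod_cast (k1 j hj).1.2
      simp only [x, norm_rp]
      rw [div_le_one S2]
      linarith) (a := D.p0) (b := D.p1) (c := D.p2) (d := D.p3) (e := D.p4)
    (div_neg_of_neg_of_pos (Int.cast_lt_zero.2 s0) S0)
    (div_neg_of_neg_of_pos (Int.cast_lt_zero.2 s1) S0) (div_pos (Int.cast_pos.2 s2) S0)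
    (div_pos (Int.cast_pos.2 s3) S0) (div_pos (Int.cast_pos.2 s4) S0) (pos d0) (pos d1)
    (pos d2) (pos d3) (pos d4) (by
      simp only [x, dt_rp, ← add_div]
      rw [le_div_iff₀ S2]
      have : (113 : ℝ) * (D.S * D.S) ≤ 25 * (cr (D.v D.p0) (D.v D.p1) + cr (D.v D.p1) (D.v D.p2) +
          cr (D.v D.p2) (D.v D.p3) + cr (D.v D.p3) (D.v D.p4) + cr (D.v D.p4) (D.v D.p0)) := by
        exact_mod_cast df
      linarith)
  rw [div_div_div_cancel_right₀ S2.ne'] at b3 b4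
  refine ⟨C, b1, b2, b3.trans ?_, le_trans ?_ b4⟩
  · rw [div_le_div_iff₀ Q1 (by norm_num)]
    have : (10000000000 : ℝ) * D.A ≤ D.X * D.Q := by exact_mod_cast hX
    linarith
  · rw [div_le_div_iff₀ (by norm_num) H2]
    have : (D.Y : ℝ) * D.H ≤ 10000000000 * D.A := by exact_mod_cast hY
    linarith

end Pool.Agent.Lib.MP_fb520c_co.End
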