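import Pool.Agent.Lib.MP_fb520c_co.Fat.Defs
import Pool.Agent.Lib.MP_fb520c_co.HarmB

/-! Symmetric polygons given by their vertices in angular order. -/

set_option autoImplicit false

open MeasureTheory Set Real Metric
open scoped ENNReal

noncomputable section

namespace Pool.Agent.Lib.MP_fb520c_co

/-- the edge vector -/
def edge (x : ℕ → Plane) (j : ℕ) : Plane := x (j + 1) - x j

/-- the polygon -/
def hull (x : ℕ → Plane) : Set Plane := convexHull ℝ (range x)

/-- `2 N` points in convex position, symmetric about the origin, in angular order -/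
structure PG (N : ℕ) (x : ℕ → Plane) : Prop where
  two : 2 ≤ N
  per : ∀ j, x (j + N) = -x j
  cx : ∀ i j, i < j → j < i + N → 0 < dt (x i) (x j)
  cd : ∀ i j, i ≤ j → j ≤ i + N → 0 ≤ dt (edge x i) (edge x j)

lemma pg_plucker (e a b c : Plane) : dt e b * dt a c = dt e a * dt b c + dt e c * dt a b := by
  simp only [dt]; ring

lemma pg_ind {N : ℕ} (hN : 0 < N) {P : ℕ → Prop} (h1 : ∀ j < N, P j) (h2 : ∀ j, P j → P (j + N))
    (j : ℕ) : P j := by
  induction j using Nat.strong_induction_on with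
  | _ j ih =>
    rcases lt_or_ge j N with h | h
    · exact h1 j h
    · obtain ⟨k, rfl⟩ := Nat.exists_eq_add_of_le' h
      exact h2 k (ih k (by omega))

lemma pg_sign (f : ℕ → ℝ) {a b : ℕ} (hab : a < b) (ha : 0 ≤ f a) (hb : f b ≤ 0) :
    ∃ j < b, 0 ≤ f j ∧ f (j + 1) ≤ 0 := by
  by_contra hne
  push Not at hne
  have k : ∀ j, a ≤ j → j < b → 0 < f (j + 1) := by
    intro j hj
    induction j, hj using Nat.le_induction with
    | base => exact fun h => hne a h ha
    | succ j hj ih => exact fun h => hne _ h (ih (by omega)).le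
  obtain ⟨c, rfl⟩ := Nat.exists_eq_add_of_lt hab
  exact (k (a + c) (by omega) (by omega)).not_ge hb

lemma pg_tele (x : ℕ → Plane) (v : Plane) {a b : ℕ} (hab : a ≤ b)
    (h : ∀ i, a ≤ i → i < b → 0 ≤ dt (edge x i) v) : 0 ≤ dt (x b - x a) v := by
  induction b, hab using Nat.le_induction with
  | base => rw [sub_self, dt_zero_left]
  | succ b hab ih =>
    have h1 := ih fun i h1 h2 => h i h1 (by omega)
    have h2 := h b hab (by omega)
    rw [edge] at h2
    rw [dt_sub_left] at h1 h2 ⊢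
    linarith

lemma sorted_le {N : ℕ} {y : ℕ → Plane} (per : ∀ j, y (j + N) = -y j) (e : Plane)
    (h1 : ∀ j < N, 0 < dt e (y j)) (h2 : ∀ j, j + 1 < N → 0 ≤ dt (y j) (y (j + 1))) :
    ∀ i j, i ≤ j → j ≤ i + N → 0 ≤ dt (y i) (y j) := by
  have base : ∀ a b, a ≤ b → b < N → 0 ≤ dt (y a) (y b) := by
    intro a b hab
    induction b, hab using Nat.le_induction with
    | base => exact fun _ => (dt_self _).ge
    | succ b hab ih =>
      intro hb
      refine (mul_nonneg_iff_of_pos_left (h1 b (by omega))).1 ?_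
      rw [pg_plucker]
      exact add_nonneg (mul_nonneg (h1 a (by omega)).le (h2 b hb))
        (mul_nonneg (h1 _ hb).le (ih (by omega)))
  intro i
  rcases Nat.eq_zero_or_pos N with rfl | hN
  · intro j h3 h4
    rw [show j = i by omega, dt_self]
  induction i using pg_ind hN with
  | h1 i hi =>
    intro j h3 h4
    rcases lt_or_ge j N with h | h
    · exact base i j h3 h
    · obtain ⟨k, rfl⟩ := Nat.exists_eq_add_of_le' h
      rw [per, dt_neg_right, ← dt_swap]
      exact base k i (by omega) hi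
  | h2 i ih =>
    intro j h3 h4
    obtain ⟨k, rfl⟩ := Nat.exists_eq_add_of_le' (show N ≤ j by omega)
    rw [per, per, dt_neg_left, dt_neg_right, neg_neg]
    exact ih k (by omega) (by omega)

lemma sorted_lt {N : ℕ} {y : ℕ → Plane} (per : ∀ j, y (j + N) = -y j) (e : Plane)
    (h1 : ∀ j < N, 0 < dt e (y j)) (h2 : ∀ j, j + 1 < N → 0 < dt (y j) (y (j + 1))) :
    ∀ i j, i < j → j < i + N → 0 < dt (y i) (y j) := by
  have base : ∀ a b, a < b → b < N → 0 < dt (y a) (y b) := by
    intro a b hab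
    induction b, hab using Nat.le_induction with
    | base => exact h2 a
    | succ b hab ih =>
      intro hb
      refine (mul_pos_iff_of_pos_left (h1 b (by omega))).1 ?_
      rw [pg_plucker]
      exact add_pos (mul_pos (h1 a (by omega)) (h2 b hb)) (mul_pos (h1 _ hb) (ih (by omega)))
  intro i
  rcases Nat.eq_zero_or_pos N with rfl | hN
  · intro j h3 h4
    omega
  induction i using pg_ind hN with
  | h1 i hi =>
    intro j h3 h4
    rcases lt_or_ge j N with h | h
    · exact base i j h3 h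
    · obtain ⟨k, rfl⟩ := Nat.exists_eq_add_of_le' h
      rw [per, dt_neg_right, ← dt_swap]
      exact base k i (by omega) hi
  | h2 i ih =>
    intro j h3 h4
    obtain ⟨k, rfl⟩ := Nat.exists_eq_add_of_le' (show N ≤ j by omega)
    rw [per, per, dt_neg_left, dt_neg_right, neg_neg]
    exact ih k (by omega) (by omega)

variable {N : ℕ} {x : ℕ → Plane}

lemma mem_hull (x : ℕ → Plane) (j : ℕ) : x j ∈ hull x := subset_convexHull _ _ ⟨j, rfl⟩

lemma convex_hull (x : ℕ → Plane) : Convex ℝ (hull x) := convex_convexHull _ _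

lemma PG.wpos (h : PG N x) (j : ℕ) : 0 < dt (x j) (x (j + 1)) :=
  h.cx j (j + 1) (by omega) (by have := h.two; omega)

lemma PG.edge_per (h : PG N x) (j : ℕ) : edge x (j + N) = -edge x j := by
  rw [edge, edge, Nat.add_right_comm, h.per, h.per]
  abel

lemma PG.pg_per2 (h : PG N x) (j : ℕ) : x (j + 2 * N) = x j := by
  rw [two_mul, ← add_assoc, h.per, h.per, neg_neg]

lemma PG.pg_w (h : PG N x) (j : ℕ) : dt (x (j + N)) (x (j + N + 1)) = dt (x j) (x (j + 1)) := by
  rw [Nat.add_right_comm, h.per, h.per, dt_neg_left, dt_neg_right, neg_neg]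

lemma PG.pg_mod (h : PG N x) (k j : ℕ) : ∃ l, j ≤ l ∧ l < j + 2 * N ∧ x l = x k := by
  have hN := h.two
  induction j with
  | zero =>
    induction k using pg_ind (N := 2 * N) (by omega) with
    | h1 k hk => exact ⟨k, by omega, by omega, rfl⟩
    | h2 k ih => rwa [h.pg_per2]
  | succ j ih =>
    obtain ⟨l, h1, h2, h3⟩ := ih
    rcases h1.eq_or_lt with rfl | h4
    · exact ⟨j + 2 * N, by omega, by omega, (h.pg_per2 j).trans h3⟩
    · exact ⟨l, h4, by omega, h3⟩

lemma PG.monge (h : PG N x) {a b c d : ℕ} (h1 : a ≤ b) (h2 : b ≤ c) (h3 : c ≤ d)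
    (h4 : d ≤ a + N) : 0 ≤ dt (x b - x a) (x d - x c) := by
  refine pg_tele x _ h1 fun i h5 h6 => ?_
  rw [dt_swap, ← dt_neg_right]
  refine pg_tele x _ h3 fun k h7 h8 => ?_
  rw [dt_neg_right, ← dt_swap]
  exact h.cd i k (by omega) (by omega)

lemma PG.edge_le (h : PG N x) {z : Plane} (hz : z ∈ hull x) (j : ℕ) :
    dt z (edge x j) ≤ dt (x j) (x (j + 1)) := by
  refine convexHull_min (t := {z | dt z (edge x j) ≤ dt (x j) (x (j + 1))}) ?_
    (convex_halfSpace_le ⟨fun a b => dt_add_left a b _, fun c a => dt_smul_left c a _⟩ _) hz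
  rintro _ ⟨k, rfl⟩
  obtain ⟨l, h1, h2, h3⟩ := h.pg_mod k j
  rw [mem_ofPred_eq, ← h3, edge]
  rcases h1.eq_or_lt with rfl | h4
  · rw [dt_sub_right, dt_self, sub_zero]
  rcases le_or_gt l (j + N) with h5 | h5
  · have := h.monge (Nat.le_succ j) le_rfl h4 h5
    simp only [dt, PiLp.sub_apply, Nat.succ_eq_add_one] at this ⊢
    linarith
  · have := h.monge h2.le le_rfl (Nat.le_succ _) (by omega)
    rw [Nat.succ_eq_add_one, Nat.add_right_comm, h.pg_per2, h.pg_per2] at this
    simp only [dt, PiLp.sub_apply] at this ⊢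
    linarith

lemma PG.sector (h : PG N x) (z : Plane) :
    ∃ j < 2 * N, ∃ s t : ℝ, 0 ≤ s ∧ 0 ≤ t ∧ z = s • x j + t • x (j + 1) := by
  have hN := h.two
  have e1 : dt (x N) z = -dt (x 0) z := by rw [← dt_neg_left, ← h.per, zero_add]
  have e2 : dt (x (2 * N)) z = dt (x 0) z := by rw [← h.pg_per2 0, zero_add]
  obtain ⟨j, h1, h2, h3⟩ : ∃ j < 2 * N, 0 ≤ dt (x j) z ∧ dt (x (j + 1)) z ≤ 0 := by
    rcases le_total 0 (dt (x 0) z) with k | k
    · obtain ⟨j, h1, h2⟩ := pg_sign (fun j => dt (x j) z) (a := 0) (b := N) (by omega) k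
        (by linarith)
      exact ⟨j, by omega, h2⟩
    · exact pg_sign (fun j => dt (x j) z) (a := N) (by omega) (by linarith) (by linarith)
  have w := h.wpos j
  refine ⟨j, h1, dt z (x (j + 1)) / dt (x j) (x (j + 1)), dt (x j) z / dt (x j) (x (j + 1)),
    div_nonneg (by rw [dt_swap]; linarith) w.le, div_nonneg h2 w.le, eq_comb w.ne' z⟩

lemma PG.mem_of (h : PG N x) {z : Plane}
    (hz : ∀ j, dt z (edge x j) ≤ dt (x j) (x (j + 1))) : z ∈ hull x := by
  obtain ⟨j, -, s, t, hs, ht, rfl⟩ := h.sector z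
  have w := h.wpos j
  have h1 := hz j
  have h2 : s + t ≤ 1 := by
    refine le_of_mul_le_mul_right ?_ w
    simp only [edge, dt, PiLp.sub_apply, PiLp.add_apply, PiLp.smul_apply, smul_eq_mul] at h1 ⊢
    linarith
  have h0 : (0 : Plane) ∈ hull x := by
    have := convex_hull x (mem_hull x 0) (mem_hull x (0 + N)) (a := 1 / 2) (b := 1 / 2)
      (by norm_num) (by norm_num) (by norm_num)
    rwa [h.per, smul_neg, add_neg_cancel] at this
  have := (convex_hull x).sum_mem (t := Finset.univ) (w := ![s, t, 1 - s - t])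
    (z := ![x j, x (j + 1), 0]) (fun i _ => by fin_cases i <;> simp [hs, ht]; linarith)
    (by simp [Fin.sum_univ_three]) fun i _ => by fin_cases i <;> simp [mem_hull, h0]
  simpa [Fin.sum_univ_three] using this

lemma PG.inn (h : PG N x) {r : ℝ}
    (hr : ∀ j < N, r ^ 2 * ‖edge x j‖ ^ 2 ≤ dt (x j) (x (j + 1)) ^ 2) :
    closedBall (0 : Plane) r ⊆ hull x := by
  have hN := h.two
  refine fun z hz => h.mem_of fun j => ?_
  have h1 : r ^ 2 * ‖edge x j‖ ^ 2 ≤ dt (x j) (x (j + 1)) ^ 2 := by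
    induction j using pg_ind (N := N) (by omega) with
    | h1 j hj => exact hr j hj
    | h2 j ih => rwa [h.pg_w, h.edge_per, norm_neg]
  have h2 : dt z (edge x j) ^ 2 ≤ ‖z‖ ^ 2 * ‖edge x j‖ ^ 2 := by
    rw [norm_sq_eq, norm_sq_eq, dt]
    nlinarith [sq_nonneg (z 0 * edge x j 0 + z 1 * edge x j 1)]
  have h3 : ‖z‖ ^ 2 ≤ r ^ 2 := pow_le_pow_left₀ (norm_nonneg _) (mem_closedBall_zero_iff.1 hz) 2
  exact (abs_le_of_sq_le_sq' (h2.trans ((mul_le_mul_of_nonneg_right h3 (sq_nonneg _)).trans h1))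
    (h.wpos j).le).2

lemma PG.out (h : PG N x) (hr : ∀ j < N, ‖x j‖ ^ 2 ≤ 1) : hull x ⊆ closedBall (0 : Plane) 1 := by
  have hN := h.two
  refine convexHull_min ?_ (convex_closedBall _ _)
  rintro _ ⟨j, rfl⟩
  rw [mem_closedBall_zero_iff]
  induction j using pg_ind (N := N) (by omega) with
  | h1 j hj => exact (sq_le_one_iff₀ (norm_nonneg _)).1 (hr j hj)
  | h2 j ih => rwa [h.per, norm_neg]

lemma PG.sym0 (h : PG N x) : Sym0 (hull x) := by
  refine ⟨Set.Finite.isCompact_convexHull ℝ (((Set.finite_Iio (2 * N)).image x).subset ?_),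
    convex_hull x, fun z hz => h.mem_of fun j => ?_, ?_⟩
  · rintro _ ⟨k, rfl⟩
    obtain ⟨l, -, h2, h3⟩ := h.pg_mod k 0
    exact ⟨l, by simpa using h2, h3⟩
  · have := h.edge_le hz (j + N)
    rwa [h.pg_w, h.edge_per, dt_neg_right, ← dt_neg_left] at this
  · have k : ∀ᶠ r : ℝ in nhds 0, ∀ j ∈ Finset.range N,
        r ^ 2 * ‖edge x j‖ ^ 2 < dt (x j) (x (j + 1)) ^ 2 := by
      refine (Filter.eventually_all_finset _).2 fun j _ => ?_
      refine ContinuousAt.eventually_lt (by fun_prop) (by fun_prop) ?_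
      simpa using pow_pos (h.wpos j) 2
    obtain ⟨r, h1, h2⟩ := ((k.filter_mono (nhdsWithin_le_nhds (s := Ioi 0))).and
      self_mem_nhdsWithin).exists
    exact ⟨r, h2, h.inn fun j hj => (h1 j (Finset.mem_range.2 hj)).le⟩

end Pool.Agent.Lib.MP_fb520c_co
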