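import Pool.Agent.Lib.MP_fb520c_co.End.Area
import Pool.Agent.Lib.MP_fb520c_co.R.Pack
import Pool.Agent.Lib.MP_fb520c_co.Cov.Main

/-! The two densities of a polygon whose vertices form affine regular hexagons. -/

set_option autoImplicit false

open MeasureTheory Set Real Metric
open scoped ENNReal

noncomputable section

namespace Pool.Agent.Lib.MP_fb520c_co

variable {x : ℕ → Plane}

lemma hull_le {f : Plane → ℝ} {d : Plane} {c H : ℝ} (hf : ∀ z, f z = dt z d + c)
    (h : ∀ j, f (x j) ≤ H) {z : Plane} (hz : z ∈ hull x) : f z ≤ H := by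
  refine convexHull_min (t := {z | f z ≤ H}) (range_subset_iff.2 h) ?_ hz
  intro u hu v hv a b ha hb hab
  simp only [mem_ofPred_eq, hf, dt_add_left, dt_smul_left] at hu hv ⊢
  have e : c = a * c + b * c := by rw [← add_mul, hab, one_mul]
  have e' : H = a * H + b * H := by rw [← add_mul, hab, one_mul]
  nlinarith [mul_le_mul_of_nonneg_left hu ha, mul_le_mul_of_nonneg_left hv hb]

lemma hull_hform {H : ℝ} (h : ∀ i j k, hform (x i) (x j) (x k) ≤ H) :
    ∀ u ∈ hull x, ∀ v ∈ hull x, ∀ t ∈ hull x, hform u v t ≤ H := by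
  intro u hu v hv t ht
  refine hull_le (f := fun u => hform u v t) (d := v + t) (c := dt v t)
    (fun z => by simp only [hform, dt_add_right]; ring) (fun i => ?_) hu
  refine hull_le (f := fun v => hform (x i) v t) (d := t - x i) (c := dt (x i) t)
    (fun z => by simp only [hform, dt_sub_right, dt_swap z (x i)]; ring) (fun j => ?_) hv
  exact hull_le (f := fun t => hform (x i) (x j) t) (d := -(x i + x j)) (c := dt (x i) (x j))
    (fun z => by simp only [hform, dt_neg_right, dt_add_right, dt_swap z]; ring) (h i j) ht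

lemma step_ind {p : ℕ → Prop} {M : ℕ} (hM : 0 < M) (h0 : ∀ j < M, p j)
    (hs : ∀ j, p j → p (j + M)) (j : ℕ) : p j := by
  induction j using Nat.strong_induction_on with
  | _ j ih =>
    rcases lt_or_ge j M with h | h
    · exact h0 j h
    · have := hs _ (ih (j - M) (by omega))
      rwa [Nat.sub_add_cancel h] at this

lemma PG.chord {M : ℕ} (h : PG (3 * M) x) (hr : ∀ j < M, x (j + 2 * M) = x (j + M) - x j) {Q : ℝ}
    (hQ : ∀ j < M, Q + dt (edge x j) (edge x (j + M)) ≤ 4 * dt (x j) (x (j + M)) ∧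
      Q + dt (edge x j) (edge x (j + M)) ≤ 4 * dt (x (j + 1)) (x (j + 1 + M))) :
    ∀ z, gauge (hull x) z = 1 → ∃ y, y ∈ hull x ∧ y - z ∈ hull x ∧ Q / 4 ≤ dt z y := by
  have hM : 0 < M := by have := h.two; omega
  have r : ∀ j, x (j + 2 * M) = x (j + M) - x j := step_ind hM hr fun j k => by
    rw [show j + M + 2 * M = j + 3 * M by omega, show j + M + M = j + 2 * M by omega, h.per, k]
    abel
  have q1 : ∀ j, dt (x (j + M)) (x (j + M + M)) = dt (x j) (x (j + M)) := fun j => by
    rw [show j + M + M = j + 2 * M by omega, r, dt_next]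
  have q2 : ∀ j, dt (edge x (j + M)) (edge x (j + M + M)) = dt (edge x j) (edge x (j + M)) := fun j => by
    have : edge x (j + M + M) = edge x (j + M) - edge x j := by
      simp only [edge]
      rw [show j + M + M + 1 = j + 1 + 2 * M by omega, show j + M + M = j + 2 * M by omega, r, r,
        show j + M + 1 = j + 1 + M by omega]
      abel
    rw [this, dt_next]
  have q := step_ind hM hQ fun j k => by
    rw [q2, q1, show j + M + 1 = j + 1 + M by omega, q1]
    exact k
  intro z hz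
  have hS := h.sym0
  obtain ⟨j, -, s, t, hs, ht, rfl⟩ := h.sector z
  have k1 := h.edge_le (hS.g_le.1 hz.le) j
  have k2 := hS.g_comb hs ht (rfl : s • x j + t • x (j + 1) = _)
  have k3 := hS.g_le.2 (mem_hull x j)
  have k4 := hS.g_le.2 (mem_hull x (j + 1))
  have k5 := h.wpos j
  have e0 : dt (s • x j + t • x (j + 1)) (edge x j) = (s + t) * dt (x j) (x (j + 1)) := by
    simp only [edge, dt, PiLp.add_apply, PiLp.smul_apply, PiLp.sub_apply, smul_eq_mul]; ring
  have st : s + t = 1 := by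
    rw [e0] at k1
    rw [hz] at k2
    apply le_antisymm <;> nlinarith
  refine ⟨s • x (j + M) + t • x (j + 1 + M), convex_hull x (mem_hull x _) (mem_hull x _) hs ht st,
    ?_, ?_⟩
  · have := convex_hull x (mem_hull x (j + 2 * M)) (mem_hull x (j + 1 + 2 * M)) hs ht st
    rw [r, r] at this
    convert this using 1
    module
  · have d0 := h.cd j (j + M) (by omega) (by omega)
    obtain ⟨a1, a2⟩ := q j
    have e : dt (s • x j + t • x (j + 1)) (s • x (j + M) + t • x (j + 1 + M)) =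
        s * dt (x j) (x (j + M)) + t * dt (x (j + 1)) (x (j + 1 + M)) -
          s * t * dt (edge x j) (edge x (j + M)) := by
      obtain rfl : s = 1 - t := by linarith
      simp only [edge, show j + M + 1 = j + 1 + M by omega, dt, PiLp.add_apply, PiLp.smul_apply,
        PiLp.sub_apply, smul_eq_mul]
      ring
    rw [e]
    obtain rfl : s = 1 - t := by linarith
    nlinarith [mul_le_mul_of_nonneg_left a1 hs, mul_le_mul_of_nonneg_left a2 ht,
      mul_nonneg (sq_nonneg (1 - 2 * t)) d0]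

theorem PG.dens {M : ℕ} (h : PG (3 * M) x) (hr : ∀ j < M, x (j + 2 * M) = x (j + M) - x j)
    {A Q H : ℝ} (hA : ∑ j ∈ Finset.range (3 * M), dt (x j) (x (j + 1)) = A) (Q0 : 0 < Q)
    (hQ : ∀ j < M, Q + dt (edge x j) (edge x (j + M)) ≤ 4 * dt (x j) (x (j + M)) ∧
      Q + dt (edge x j) (edge x (j + M)) ≤ 4 * dt (x (j + 1)) (x (j + 1 + M)))
    (H0 : 0 < H) (H1 : H ≤ 5 / 2) (hH : ∀ i j k, hform (x i) (x j) (x k) ≤ H)
    (hi : ∀ j < 3 * M, (118 / 125 : ℝ) ^ 2 * ‖edge x j‖ ^ 2 ≤ dt (x j) (x (j + 1)) ^ 2)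
    (ho : ∀ j < 3 * M, ‖x j‖ ^ 2 ≤ 1) {a b c d e : ℕ} (s0 : x a 1 < 0) (s1 : x b 1 < 0)
    (s2 : 0 < x c 1) (s3 : 0 < x d 1) (s4 : 0 < x e 1) (d0 : 0 < dt (x a) (x b))
    (d1 : 0 < dt (x b) (x c)) (d2 : 0 < dt (x c) (x d)) (d3 : 0 < dt (x d) (x e))
    (d4 : 0 < dt (x e) (x a)) (hf : 113 / 25 ≤ dt (x a) (x b) + dt (x b) (x c) + dt (x c) (x d) +
      dt (x d) (x e) + dt (x e) (x a)) :
    ∃ C, IsConvexBody C ∧ IsCentrallySymmetric C ∧ packingDensity C ≤ A / Q ∧
      A / H ≤ coveringDensity C := by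
  have hS := h.sym0
  have hpi := pi_lt_d4
  have ar : (volume (hull x)).toReal = A := h.area.trans hA
  have A0 : 0 < A := ar ▸ hS.area_pos
  have k1 := hS.pd_le_of_chord (q := Q / 4) (by positivity) (h.chord hr hQ)
  have k2 := hS.fat_le_cd (r := 118 / 125) (h := H) (f := 113 / 50) (c := 33 / 100) (h.inn hi)
    (h.out ho) (by norm_num) (by norm_num) (by norm_num) (hull_hform hH) (mem_hull x a)
    (mem_hull x b) (mem_hull x c) (mem_hull x d) (mem_hull x e) s0 s1 s2 s3 s4 d0 d1 d2 d3 d4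
    (by linarith) (by norm_num) (by linarith) (by linarith) (by linarith) (by linarith) H0
  rw [ar] at k1 k2
  rw [mul_div_cancel₀ _ (by norm_num : (4 : ℝ) ≠ 0)] at k1
  refine ⟨hull x, ⟨hS.cpt, hS.cvx, 0, mem_interior_iff_mem_nhds.2 hS.nhds⟩,
    ⟨0, fun z hz => by simpa using hS.sym z hz⟩,
    ENNReal.toReal_le_of_le_ofReal (by positivity) k1, ?_⟩
  exact (ENNReal.ofReal_le_iff_le_toReal (ENNReal.toReal_pos_iff.1
    (hS.main 0 le_rfl (by positivity : (0 : ℝ) ≤ π / 6)).2.1).2.ne).1 k2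

end Pool.Agent.Lib.MP_fb520c_co
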